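import Mathlib
import Pool.Agent.H.MP_6756f0_al.W

set_option autoImplicit false

namespace Pool.Agent.Results.MP_6756f0_al.No

open Pool.Agent.H.MP_811251_al Pool.Agent.H.MP_6756f0_al Pool.Agent.H.MP_7e1e73_al MvPolynomial TensorProduct

variable (k : Type) [Field k]

/-- The ideal generated by the four variables. -/
noncomputable def mx : Ideal (MvPolynomial (Fin 4) k) := Ideal.span (Set.range X)

/-- The first factor. -/
noncomputable def I1 : Ideal (MvPolynomial (Fin 4) k) := mx k ^ 2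

/-- The second factor. -/
noncomputable def I2 : Ideal (MvPolynomial (Fin 4) k) :=
  mx k * Ideal.span (Set.range fun i => X i ^ 4) ⊔ Ideal.span {(X 0 * X 1 * X 2 * X 3) ^ 3}

/-- The quotient by `I` is Golod. -/
def GolodI (I : Ideal (MvPolynomial (Fin 4) k)) : Prop := Golod k fun j => Ideal.Quotient.mk I (X j)

lemma dg (m : Fin 4 →₀ ℕ) : m.degree = m 0 + m 1 + m 2 + m 3 := by
  simp [Finsupp.degree_eq_sum, Fin.sum_univ_four]

lemma G1 : GolodI k (I1 k) := by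
  refine golod_W (Ideal.Quotient.mkₐ k (I1 k)) Ideal.Quotient.mk_surjective (φ := fun m => 2 ≤ m.degree)
    (ψ := fun m => 1 ≤ m.degree)
    (fun r hr => (mem_pow_idealOfVars_iff 2 r).1 (Ideal.Quotient.eq_zero_iff_mem.1 hr))
    (fun m m' h1 h2 => Ideal.Quotient.eq_zero_iff_mem.2 ((monomial_mem_pow_idealOfVars_iff 2 _ one_ne_zero).2
      (by rw [map_add]; omega))) fun i z hz h => red0 (fun m p h1 h2 => ?_) hz h
  rw [dg] at h1 ⊢
  fin_cases p <;> simp at h2 ⊢ <;> omega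

def ch (m : Fin 4 →₀ ℕ) : Prop :=
  ((4 ≤ m 0 ∨ 4 ≤ m 1 ∨ 4 ≤ m 2 ∨ 4 ≤ m 3) ∧ 5 ≤ m 0 + m 1 + m 2 + m 3) ∨ (3 ≤ m 0 ∧ 3 ≤ m 1 ∧ 3 ≤ m 2 ∧ 3 ≤ m 3)

def ps (m : Fin 4 →₀ ℕ) : Prop :=
  4 ≤ m 0 ∨ 4 ≤ m 1 ∨ 4 ≤ m 2 ∨ 4 ≤ m 3 ∨ (3 ≤ m 0 ∧ (3 ≤ m 1 ∨ 3 ≤ m 2 ∨ 3 ≤ m 3)) ∨
    (3 ≤ m 1 ∧ (3 ≤ m 2 ∨ 3 ≤ m 3)) ∨ (3 ≤ m 2 ∧ 3 ≤ m 3)

noncomputable def s3 : Fin 4 →₀ ℕ :=
  Finsupp.single 0 3 + Finsupp.single 1 3 + Finsupp.single 2 3 + Finsupp.single 3 3

lemma hs : (X 0 * X 1 * X 2 * X 3 : MvPolynomial (Fin 4) k) ^ 3 = monomial s3 1 := by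
  simp only [mul_pow, X_pow_eq_monomial, monomial_mul, mul_one, s3]

lemma sup2 {r : MvPolynomial (Fin 4) k} (hr : r ∈ I2 k) : ∀ m ∈ r.support, ch m := by
  have : I2 k ≤ Ideal.span ((fun s => monomial s (1 : k)) '' {m | ch m}) := by
    refine sup_le ?_ (Ideal.span_le.2 ?_)
    · rw [mx, Ideal.span_mul_span, Ideal.span_le]
      rintro _ ⟨_, ⟨i, rfl⟩, _, ⟨j, rfl⟩, rfl⟩
      refine Ideal.subset_span ⟨Finsupp.single i 1 + Finsupp.single j 4, ?_, by
        simp only [X, monomial_pow, monomial_mul]; simp⟩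
      fin_cases i <;> fin_cases j <;> simp [ch]
    · rintro _ rfl
      exact Ideal.subset_span ⟨s3, by simp [ch, s3], (hs k).symm⟩
  intro m hm
  obtain ⟨s, h1, h2⟩ := mem_ideal_span_monomial_image.1 (this hr) m hm
  have := h2 0; have := h2 1; have := h2 2; have := h2 3
  simp only [ch, Set.mem_ofPred_eq] at h1 ⊢
  omega

lemma chc {m : Fin 4 →₀ ℕ} (h : ch m) : s3 ≤ m ∨ ∃ i j, Finsupp.single i 1 + Finsupp.single j 4 ≤ m := by
  rcases h with ⟨h1, h2⟩ | h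
  · obtain ⟨j, hj⟩ : ∃ j, 4 ≤ m j := by
      rcases h1 with h | h | h | h <;> exact ⟨_, h⟩
    obtain ⟨i, hi⟩ : ∃ i, 1 ≤ (m - Finsupp.single j 4 : Fin 4 →₀ ℕ) i := by
      by_contra! h
      have h0 := h 0; have h1 := h 1; have h2 := h 2; have h3 := h 3
      fin_cases j <;> simp at h0 h1 h2 h3 hj <;> omega
    exact Or.inr ⟨i, j, (le_tsub_iff_right (Finsupp.single_le_iff.2 hj)).1 (Finsupp.single_le_iff.2 hi)⟩
  · exact Or.inl fun i => by fin_cases i <;> simp [s3, h]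

lemma mem2 {m : Fin 4 →₀ ℕ} (h : ch m) : monomial m (1 : k) ∈ I2 k := by
  have e : ∀ s ≤ m, monomial s (1 : k) ∈ I2 k → monomial m (1 : k) ∈ I2 k := fun s h1 h2 => by
    have := Ideal.mul_mem_left _ (monomial (m - s) 1) h2
    rwa [monomial_mul, tsub_add_cancel_of_le h1, mul_one] at this
  rcases chc h with h1 | ⟨i, j, h2⟩
  · exact e _ h1 (Ideal.mem_sup_right (by rw [hs]; exact Ideal.mem_span_singleton_self _))
  refine e _ h2 (Ideal.mem_sup_left ?_)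
  rw [← mul_one (1 : k), ← monomial_mul, ← X_pow_eq_monomial, ← X_pow_eq_monomial, pow_one]
  exact Ideal.mul_mem_mul (Ideal.subset_span ⟨i, rfl⟩) (Ideal.subset_span ⟨j, rfl⟩)

lemma G2 : GolodI k (I2 k) := by
  refine golod_W (Ideal.Quotient.mkₐ k (I2 k)) Ideal.Quotient.mk_surjective (φ := ch) (ψ := ps)
    (fun r hr => sup2 k (Ideal.Quotient.eq_zero_iff_mem.1 hr))
    (fun m m' h1 h2 => Ideal.Quotient.eq_zero_iff_mem.2 (mem2 k ?_)) fun i z hz h => ?_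
  · simp only [ch, ps, Finsupp.add_apply] at h1 h2 ⊢
    omega
  cases i with
  | zero =>
    refine red1 (fun m h => ?_) hz h
    rcases chc h with h1 | ⟨i, j, h2⟩
    · have h0 := h1 0; have h2 := h1 2; have h3 := h1 3
      refine ⟨0, ?_, ?_⟩ <;> simp [ps, s3] at h0 h2 h3 ⊢ <;> omega
    · have h3 := h2 i
      have h4 := Finsupp.single_le_iff.1 (le_tsub_of_add_le_left h2)
      refine ⟨i, by simp at h3; omega, ?_⟩
      generalize m - Finsupp.single i 1 = m' at h4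
      fin_cases j <;> simp [ps] at h4 ⊢ <;> omega
  | succ i =>
    refine red2 4 (fun m p h1 h2 h3 => ?_) (fun m p q h1 h2 h3 => ?_) hz h
    · fin_cases p <;> simp [ch, ps] at h1 h2 h3 ⊢ <;> omega
    · fin_cases p <;> fin_cases q <;> simp [ps] at h1 h2 h3 ⊢ <;> omega

lemma top {R : Type} [CommRing R] [Algebra k R] (x : Fin 4 → R) (r : R)
    (h : r ⊗ₜ (ee k 0 * (ee k 1 * (ee k 2 * ee k 3))) ∈ LinearMap.range (kd k x)) : r = 0 := by
  let c : Fin 4 → Module.End k (Ex k (Fin 4 → k)) := fun j => dl (LinearMap.proj j)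
  let Φ : Kz k R 4 →ₗ[k] R := (TensorProduct.rid k R).toLinearMap ∘ₗ
    ((ExteriorAlgebra.algebraMapInv (M := Fin 4 → k)).toLinearMap ∘ₗ (c 3 * c 2 * c 1 * c 0)).lTensor R
  have h1 : ∀ t, Φ (kd k x t) = 0 := fun t => by
    induction t using TensorProduct.induction_on with
    | zero => simp
    | add a b ha hb => simp only [map_add, ha, hb, add_zero]
    | tmul r a =>
      have c1 : ∀ i a, c i (c i a) = 0 := fun i a => dl_dl _ a
      have c2 : ∀ i j a, c i (c j a) = -c j (c i a) := fun i j a => dl_comm _ _ a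
      have c3 : ∀ j, dl (LinearMap.proj j) a = c j a := fun _ => rfl
      simp [kd_tmul, Φ, Fin.sum_univ_four, c3, c1, c2 0 1, c2 0 2, c2 0 3, c2 1 2, c2 1 3, c2 2 3]
  obtain ⟨t, ht⟩ := h
  have := h1 t
  rw [ht, ← mul_one (ee k 3)] at this
  simpa [Φ, c, dl_ee, dl_one, -mul_one] using this

lemma cyc {R : Type} [CommRing R] [Algebra k R] (x : Fin 4 → R) (r : R) (p q : Fin 4) (h1 : x p * r = 0)
    (h2 : x q * r = 0) : r ⊗ₜ (ee k p * ee k q) ∈ Kdeg k R 4 2 ∧ kd k x (r ⊗ₜ (ee k p * ee k q)) = 0 := by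
  rw [← mul_one (ee k q)]
  refine ⟨tmul_mem _ (ee_mem p (ee_mem q (i := 0) (by simp))), ?_⟩
  rw [kd_tmul]
  refine Finset.sum_eq_zero fun j _ => ?_
  by_cases e1 : j = p
  · simp [e1, h1]
  by_cases e2 : j = q
  · simp [e2, h2]
  simp [dl_ee, e1, e2, dl_one, -mul_one]

lemma nb {R : Type} [CommRing R] [Algebra k R] (x : Fin 4 → R) (G : Golod k x)
    (h : ∀ p q, x q * x q * (x q * x p ^ 4) = 0) : (x 0 * x 1 * x 2 * x 3) ^ 3 = 0 := by
  obtain ⟨h1, h2⟩ := cyc k x ((x 0 * x 1) ^ 3) 0 1 (by linear_combination h 0 1) (by linear_combination h 1 0)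
  obtain ⟨h3, h4⟩ := cyc k x ((x 2 * x 3) ^ 3) 2 3 (by linear_combination h 2 3) (by linear_combination h 3 2)
  have := prod_bd x G (by decide) (by decide) h1 h3 h2 h4
  rw [Algebra.TensorProduct.tmul_mul_tmul, mul_assoc] at this
  linear_combination top k x _ this

theorem result : GolodI k (I1 k) ∧ GolodI k (I2 k) ∧ ¬ GolodI k (I1 k * I2 k) := by
  refine ⟨G1 k, G2 k, fun G => ?_⟩
  have m1 : ∀ i, X i ∈ mx k := fun i => Ideal.subset_span ⟨i, rfl⟩
  have := nb k _ G fun p q => by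
    simp only [← map_pow, ← map_mul]
    exact Ideal.Quotient.eq_zero_iff_mem.2 (Ideal.mul_mem_mul (by
      rw [I1, sq]; exact Ideal.mul_mem_mul (m1 q) (m1 q))
      (Ideal.mem_sup_left (Ideal.mul_mem_mul (m1 q) (Ideal.subset_span ⟨p, rfl⟩))))
  simp only [← map_pow, ← map_mul, hs] at this
  have e : I1 k * I2 k ≤ idealOfVars _ k ^ 13 ⊔ Ideal.span ((fun s => monomial s (1 : k)) ''
      Set.range fun i => Finsupp.single i 4) := by
    rw [I2, Ideal.mul_sup]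
    refine sup_le (le_sup_of_le_right (Ideal.mul_le_right.trans (Ideal.mul_le_right.trans (Ideal.span_mono ?_))))
      (le_sup_of_le_left ?_)
    · rintro _ ⟨i, rfl⟩
      exact ⟨_, ⟨i, rfl⟩, (X_pow_eq_monomial).symm⟩
    · rw [show 13 = 2 + 11 from rfl, pow_add]
      refine Ideal.mul_mono le_rfl ((Ideal.span_singleton_le_iff_mem _).2 ?_)
      rw [hs, monomial_mem_pow_idealOfVars_iff _ _ one_ne_zero, dg]
      simp [s3]
  obtain ⟨a, ha, b, hb, e⟩ := Submodule.mem_sup.1 (e (Ideal.Quotient.eq_zero_iff_mem.1 this))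
  have h1 := (mem_pow_idealOfVars_iff' 13 a).1 ha s3 (by rw [dg]; simp [s3])
  have h2 : coeff s3 b = 0 := by
    by_contra h
    obtain ⟨_, ⟨i, rfl⟩, h⟩ := mem_ideal_span_monomial_image.1 hb s3 (mem_support_iff.2 h)
    have := h i
    fin_cases i <;> simp [s3] at this
  simpa [h1, h2] using congrArg (coeff s3) e

end Pool.Agent.Results.MP_6756f0_al.No
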